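import Mathlib

/-!
# A non-Liouville vertex-transitive graph with finite survival number (MP_70c392, Q1)

The strong product of the `4`-regular tree and the two-way infinite path is non-Liouville and its
survival number is at most `8`.
-/

namespace Pool.Agent.Results.MP_70c392_co.NonLiouvilleFiniteSurvival

open SimpleGraph

section defs

variable {V : Type*}

/-- Every vertex can be moved to every other vertex by an automorphism. -/
def VertexTransitive (G : SimpleGraph V) : Prop := ∀ u v : V, ∃ φ : G ≃g G, φ u = v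

/-- The Voronoi cell of `v` with respect to `T`. -/
def Cell (G : SimpleGraph V) (v : V) (T : Finset V) : Set V :=
  {u | ∀ v' ∈ T, G.dist u v ≤ G.dist u v'}

/-- The family `𝒯(D, n)`. -/
def Sites (G : SimpleGraph V) (D n : ℕ) : Set (Finset V) :=
  {T | n ≤ T.card ∧ ∀ v₁ ∈ T, ∀ v₂ ∈ T, v₁ ≠ v₂ → D < G.dist v₁ v₂}

/-- The number of sites with an infinite Voronoi cell. -/
noncomputable def numInfinite (G : SimpleGraph V) (T : Finset V) : ℕ :=
  {v | v ∈ T ∧ (Cell G v T).Infinite}.ncard

/-- The survival number. -/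
noncomputable def survival (G : SimpleGraph V) : ℕ∞ :=
  sSup {m : ℕ∞ | ∃ n : ℕ, 1 ≤ n ∧ m = n ∧ ∃ D : ℕ, ∀ T ∈ Sites G D n, n ≤ numInfinite G T}

/-- A function is harmonic if its value at each vertex is the average over the neighbours. -/
def Harmonic (G : SimpleGraph V) [G.LocallyFinite] (h : V → ℝ) : Prop :=
  ∀ v, h v = (∑ u ∈ G.neighborFinset v, h u) / (G.degree v : ℝ)

/-- A graph is Liouville if every bounded harmonic function is constant. -/
def Liouville (G : SimpleGraph V) [G.LocallyFinite] : Prop :=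
  ∀ h : V → ℝ, Harmonic G h → (∃ C : ℝ, ∀ v, |h v| ≤ C) → ∀ u v, h u = h v

end defs

/-- The free group on two letters. -/
abbrev F := FreeGroup (Fin 2)

/-- A letter or its inverse. -/
def letter (x : Fin 2 × Bool) : F := FreeGroup.mk [x]

/-- The strong product of the Cayley tree of the free group and the two-way infinite path. -/
def Gr : SimpleGraph (F × ℤ) where
  Adj x y := x ≠ y ∧ (y.1 * x.1⁻¹).norm ≤ 1 ∧ (y.2 - x.2).natAbs ≤ 1
  symm := ⟨fun x y h => by
    refine ⟨h.1.symm, ?_, ?_⟩
    · rw [← FreeGroup.norm_inv_eq, mul_inv_rev, inv_inv]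
      exact h.2.1
    · have := h.2.2
      omega⟩
  loopless := ⟨fun x h => h.1 rfl⟩

/-- The distance in the strong product. -/
def E (x y : F × ℤ) : ℕ := max (y.1 * x.1⁻¹).norm (y.2 - x.2).natAbs

lemma norm_letter (x : Fin 2 × Bool) : (letter x).norm ≤ 1 := by
  simpa [letter] using FreeGroup.norm_mk_le (L₁ := [x])

/-- Removing the last letter. -/
lemma last (h : F) (hh : h ≠ 1) : ∃ x, (h * (letter x)⁻¹).norm + 1 ≤ h.norm := by
  have h0 : h.toWord ≠ [] := by
    rwa [Ne, FreeGroup.toWord_eq_nil_iff]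
  obtain ⟨L, x, hL⟩ : ∃ L x, h.toWord = L ++ [x] :=
    ⟨h.toWord.dropLast, h.toWord.getLast h0, (List.dropLast_append_getLast h0).symm⟩
  refine ⟨x, ?_⟩
  have h1 : h = FreeGroup.mk L * letter x := by
    unfold letter
    rw [FreeGroup.mul_mk, ← hL, FreeGroup.mk_toWord]
  have h2 : h * (letter x)⁻¹ = FreeGroup.mk L := by
    rw [h1]
    group
  have h3 : h.norm = L.length + 1 := by
    unfold FreeGroup.norm
    rw [hL]
    simp
  rw [h2, h3]
  have := FreeGroup.norm_mk_le (L₁ := L)
  omega

lemma E_self (x : F × ℤ) : E x x = 0 := by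
  simp [E]

lemma E_eq_zero {x y : F × ℤ} (h : E x y = 0) : x = y := by
  unfold E at h
  have h1 : (y.1 * x.1⁻¹).norm = 0 := by omega
  have h2 : (y.2 - x.2).natAbs = 0 := by omega
  rw [FreeGroup.norm_eq_zero, mul_inv_eq_one] at h1
  exact Prod.ext h1.symm (by omega)

lemma E_le_of_walk {x y : F × ℤ} (p : Gr.Walk x y) : E x y ≤ p.length := by
  induction p with
  | nil => simp [E_self]
  | @cons x z y h p ih =>
    have h1 := h.2.1
    have h2 := h.2.2
    have h3 : (y.1 * x.1⁻¹).norm ≤ (y.1 * z.1⁻¹).norm + (z.1 * x.1⁻¹).norm := by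
      have e : y.1 * x.1⁻¹ = (y.1 * z.1⁻¹) * (z.1 * x.1⁻¹) := by group
      rw [e]
      exact FreeGroup.norm_mul_le _ _
    unfold E at ih ⊢
    rw [Walk.length_cons]
    omega

lemma exists_walk (n : ℕ) : ∀ x y : F × ℤ, E x y ≤ n → ∃ p : Gr.Walk x y, p.length ≤ n := by
  induction n with
  | zero =>
    intro x y h
    have := E_eq_zero (Nat.le_zero.1 h)
    subst this
    exact ⟨Walk.nil, le_rfl⟩
  | succ n ih =>
    intro x y h
    by_cases hn : E x y ≤ n
    · obtain ⟨p, hp⟩ := ih x y hn
      exact ⟨p, by omega⟩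
    obtain ⟨g, hg, hg'⟩ : ∃ g : F, g.norm ≤ 1 ∧ (y.1 * (g * x.1)⁻¹).norm ≤ n := by
      by_cases h1 : y.1 * x.1⁻¹ = 1
      · exact ⟨1, by simp, by simp [h1]⟩
      · obtain ⟨s, hs⟩ := last _ h1
        refine ⟨letter s, norm_letter s, ?_⟩
        have e : y.1 * (letter s * x.1)⁻¹ = y.1 * x.1⁻¹ * (letter s)⁻¹ := by group
        rw [e]
        unfold E at h
        omega
    obtain ⟨k, hk, hk'⟩ : ∃ k : ℤ, (k - x.2).natAbs ≤ 1 ∧ (y.2 - k).natAbs ≤ n := by
      unfold E at h
      rcases lt_trichotomy x.2 y.2 with h2 | h2 | h2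
      · exact ⟨x.2 + 1, by omega, by omega⟩
      · exact ⟨x.2, by omega, by omega⟩
      · exact ⟨x.2 - 1, by omega, by omega⟩
    obtain ⟨p, hp⟩ := ih (g * x.1, k) y (by unfold E; exact max_le hg' hk')
    have hadj : Gr.Adj x (g * x.1, k) := by
      refine ⟨?_, by simpa using hg, hk⟩
      intro e
      apply hn
      rw [e]
      exact max_le hg' hk'
    exact ⟨Walk.cons hadj p, by rw [Walk.length_cons]; omega⟩

lemma connected : Gr.Connected := by
  have : Nonempty (F × ℤ) := ⟨(1, 0)⟩
  refine ⟨fun x y => ?_⟩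
  obtain ⟨p, -⟩ := exists_walk (E x y) x y le_rfl
  exact ⟨p⟩

lemma dist_eq (x y : F × ℤ) : Gr.dist x y = E x y := by
  apply le_antisymm
  · obtain ⟨p, hp⟩ := exists_walk (E x y) x y le_rfl
    exact (dist_le p).trans hp
  · obtain ⟨p, hp⟩ := connected.exists_walk_length_eq_dist x y
    rw [← hp]
    exact E_le_of_walk p

lemma transitive : VertexTransitive Gr := by
  intro u v
  refine ⟨⟨⟨fun x => (x.1 * (u.1⁻¹ * v.1), x.2 + (v.2 - u.2)),
    fun x => (x.1 * (u.1⁻¹ * v.1)⁻¹, x.2 - (v.2 - u.2)), ?_, ?_⟩, ?_⟩, ?_⟩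
  · intro x
    apply Prod.ext
    · show x.1 * (u.1⁻¹ * v.1) * (u.1⁻¹ * v.1)⁻¹ = x.1
      group
    · simp
  · intro x
    apply Prod.ext
    · show x.1 * (u.1⁻¹ * v.1)⁻¹ * (u.1⁻¹ * v.1) = x.1
      group
    · simp
  · intro x y
    simp only [Gr, Equiv.coe_fn_mk, ne_eq, Prod.mk.injEq, mul_left_inj, add_left_inj]
    rw [Prod.ext_iff]
    have e1 : y.1 * (u.1⁻¹ * v.1) * (x.1 * (u.1⁻¹ * v.1))⁻¹ = y.1 * x.1⁻¹ := by group
    have e2 : y.2 + (v.2 - u.2) - (x.2 + (v.2 - u.2)) = y.2 - x.2 := by ring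
    rw [e1, e2]
  · ext
    · simp
    · simp

/-! ### Harmonic functions -/

/-- The elements of norm at most one. -/
def gens : Finset F := insert 1 (Finset.univ.image letter)

lemma letter_injective : Function.Injective letter := by
  intro x y h
  have h1 : (letter x).toWord = (letter y).toWord := by rw [h]
  simpa [letter, FreeGroup.toWord_mk] using h1

lemma letter_ne_one (x : Fin 2 × Bool) : letter x ≠ 1 := by
  intro h
  have h1 : (letter x).toWord = (1 : F).toWord := by rw [h]
  simp [letter, FreeGroup.toWord_mk] at h1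

lemma mem_gens (g : F) : g ∈ gens ↔ g.norm ≤ 1 := by
  unfold gens
  rw [Finset.mem_insert, Finset.mem_image]
  constructor
  · rintro (rfl | ⟨x, -, rfl⟩)
    · simp
    · exact norm_letter x
  · intro h
    by_cases h1 : g = 1
    · exact Or.inl h1
    · right
      obtain ⟨x, hx⟩ := last g h1
      refine ⟨x, Finset.mem_univ _, ?_⟩
      have h2 : (g * (letter x)⁻¹).norm = 0 := by omega
      rw [FreeGroup.norm_eq_zero, mul_inv_eq_one] at h2
      exact h2.symm

/-- The neighbours of a vertex. -/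
noncomputable def nb (v : F × ℤ) : Finset (F × ℤ) :=
  ((gens ×ˢ Finset.Icc (-1 : ℤ) 1).erase (1, 0)).image (fun p => (p.1 * v.1, v.2 + p.2))

lemma mem_nb (v u : F × ℤ) : u ∈ nb v ↔ Gr.Adj v u := by
  unfold nb
  rw [Finset.mem_image]
  constructor
  · rintro ⟨p, hp, rfl⟩
    rw [Finset.mem_erase, Finset.mem_product, mem_gens, Finset.mem_Icc] at hp
    obtain ⟨h1, h2, h3, h4⟩ := hp
    refine ⟨?_, by simpa using h2, by simp; omega⟩
    intro e
    apply h1
    have e1 := congrArg Prod.fst e
    have e2 := congrArg Prod.snd e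
    simp only at e1 e2
    apply Prod.ext
    · simpa using e1.symm
    · show p.2 = 0
      omega
  · rintro ⟨h1, h2, h3⟩
    refine ⟨(u.1 * v.1⁻¹, u.2 - v.2), ?_, ?_⟩
    · rw [Finset.mem_erase, Finset.mem_product, mem_gens, Finset.mem_Icc]
      refine ⟨?_, h2, ?_⟩
      · intro e
        apply h1
        have e1 := congrArg Prod.fst e
        have e2 := congrArg Prod.snd e
        simp only at e1 e2
        rw [mul_inv_eq_one] at e1
        exact Prod.ext e1.symm (by omega)
      · simp only
        omega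
    · simp

/-- The graph is locally finite. -/
noncomputable instance : Gr.LocallyFinite := fun v =>
  Fintype.ofFinset (nb v) (fun u => by rw [mem_nb, mem_neighborSet])

lemma neighborFinset_eq (v : F × ℤ) : Gr.neighborFinset v = nb v := by
  ext u
  rw [mem_neighborFinset, mem_nb]

lemma sum_nb (φ : F → ℝ) (v : F × ℤ) : ∑ u ∈ nb v, φ u.1 =
    3 * (φ v.1 + ∑ x, φ (letter x * v.1)) - φ v.1 := by
  unfold nb
  rw [Finset.sum_image]
  · rw [Finset.sum_erase_eq_sub (by simp [gens]), Finset.sum_product]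
    simp only [one_mul, Finset.sum_const]
    have h1 : (Finset.Icc (-1 : ℤ) 1).card = 3 := by decide
    rw [h1]
    unfold gens
    rw [Finset.sum_insert, Finset.sum_image (fun x _ y _ h => letter_injective h)]
    · simp only [one_mul, nsmul_eq_mul]
      rw [← Finset.mul_sum]
      push_cast
      ring
    · rw [Finset.mem_image]
      rintro ⟨x, -, hx⟩
      exact letter_ne_one x hx
  · intro p _ q _ h
    have e1 := congrArg Prod.fst h
    have e2 := congrArg Prod.snd h
    simp only at e1 e2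
    exact Prod.ext (mul_right_cancel e1) (by omega)

lemma card_nb (v : F × ℤ) : (nb v).card = 14 := by
  have h := sum_nb (fun _ => 1) v
  simp only [Finset.sum_const, nsmul_eq_mul, mul_one] at h
  have h2 : ((nb v).card : ℝ) = (14 : ℕ) := by
    rw [h]
    simp
    norm_num
  exact_mod_cast h2

/-- The sign of a last letter. -/
def sg : Option (Fin 2 × Bool) → ℝ
  | some (0, true) => 1
  | some (1, true) => -1
  | _ => 0

/-- A bounded harmonic function on the tree. -/
noncomputable def phi (g : F) : ℝ := sg g.toWord.getLast? * (1 - (1 / 3) ^ g.norm)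

lemma abs_phi (g : F) : |phi g| ≤ 1 := by
  unfold phi
  rw [abs_mul]
  have h1 : |sg g.toWord.getLast?| ≤ 1 := by
    unfold sg
    split <;> simp
  have h2 : (0 : ℝ) ≤ (1 / 3) ^ g.norm := by positivity
  have h3 : ((1 : ℝ) / 3) ^ g.norm ≤ 1 := pow_le_one₀ (by norm_num) (by norm_num)
  have h4 : |1 - ((1 : ℝ) / 3) ^ g.norm| ≤ 1 := by
    rw [abs_le]
    constructor <;> linarith
  calc |sg g.toWord.getLast?| * |1 - ((1 : ℝ) / 3) ^ g.norm| ≤ 1 * 1 := by
        gcongr
    _ = 1 := by norm_num

lemma toWord_letter_mul (x : Fin 2 × Bool) (g : F) :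
    (letter x * g).toWord = FreeGroup.reduce (x :: g.toWord) := by
  unfold letter
  conv_lhs => rw [← FreeGroup.mk_toWord (x := g)]
  rw [FreeGroup.mul_mk, FreeGroup.toWord_mk]
  rfl

lemma sum_phi (g : F) : ∑ x, phi (letter x * g) = 4 * phi g := by
  have hred : FreeGroup.reduce g.toWord = g.toWord := FreeGroup.reduce_toWord g
  unfold phi FreeGroup.norm
  simp only [toWord_letter_mul, FreeGroup.reduce.cons, hred]
  cases hL : g.toWord with
  | nil =>
    simp [Fintype.sum_prod_type, sg]
  | cons y tl =>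
    have key : ∀ x : Fin 2 × Bool,
        (sg (if x.1 = y.1 ∧ x.2 = !y.2 then tl else x :: y :: tl).getLast? *
          (1 - (1 / 3 : ℝ) ^ (if x.1 = y.1 ∧ x.2 = !y.2 then tl else x :: y :: tl).length)) =
        if x.1 = y.1 ∧ x.2 = !y.2 then sg (y :: tl).getLast? * (1 - (1 / 3 : ℝ) ^ tl.length) else
          sg (y :: tl).getLast? * (1 - (1 / 3 : ℝ) ^ (tl.length + 2)) := by
      intro x
      split_ifs with h
      · rcases tl with - | ⟨z, tl⟩
        · simp
        · simp
      · simp
    have h2 : ∑ x : Fin 2 × Bool, (if x.1 = y.1 ∧ x.2 = !y.2 then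
        sg (y :: tl).getLast? * (1 - (1 / 3 : ℝ) ^ tl.length) else
          sg (y :: tl).getLast? * (1 - (1 / 3 : ℝ) ^ (tl.length + 2))) =
        4 * (sg (y :: tl).getLast? * (1 - (1 / 3 : ℝ) ^ (tl.length + 1))) := by
      generalize sg (y :: tl).getLast? = c
      obtain ⟨i, b⟩ := y
      rw [pow_succ, pow_succ]
      fin_cases i <;> cases b <;> simp [Fintype.sum_prod_type] <;> ring
    rw [Finset.sum_congr rfl (fun x _ => key x), h2]
    simp

lemma harmonic_phi : Harmonic Gr (fun v => phi v.1) := by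
  intro v
  rw [← card_neighborFinset_eq_degree, neighborFinset_eq, card_nb, sum_nb, sum_phi]
  push_cast
  ring

lemma not_liouville : ¬ Liouville Gr := by
  intro h
  have h1 := h _ harmonic_phi ⟨1, fun v => abs_phi v.1⟩ (letter (0, true), 0) (1, 0)
  simp [phi, letter, FreeGroup.toWord_mk, sg, FreeGroup.norm] at h1
  norm_num at h1

/-! ### The survival number -/

/-- The letters, in cyclic order. -/
def lt (j : ℕ) : Fin 2 × Bool := (if j % 2 = 0 then 0 else 1, decide (j / 2 % 2 = 0))

/-- The heights of the sites. -/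
def ht (D j : ℕ) : ℤ := (if j / 4 % 2 = 0 then 1 else -1) * ((j + 1) * (D + 1))

/-- The sites different from the origin. -/
def site (D j : ℕ) : F × ℤ := (letter (lt j), ht D j)

lemma lt_ht (x : Fin 2 × Bool) (D : ℕ) :
    (∃ j < 8, lt j = x ∧ 0 < ht D j) ∧ ∃ j < 8, lt j = x ∧ ht D j < 0 := by
  obtain ⟨i, b⟩ := x
  constructor
  · fin_cases i <;> cases b
    · refine ⟨2, by norm_num, by decide, ?_⟩
      unfold ht; norm_num
    · refine ⟨0, by norm_num, by decide, ?_⟩
      unfold ht; norm_num
    · refine ⟨3, by norm_num, by decide, ?_⟩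
      unfold ht; norm_num
    · refine ⟨1, by norm_num, by decide, ?_⟩
      unfold ht; norm_num
  · fin_cases i <;> cases b
    · refine ⟨6, by norm_num, by decide, ?_⟩
      unfold ht; norm_num
    · refine ⟨4, by norm_num, by decide, ?_⟩
      unfold ht; norm_num
    · refine ⟨7, by norm_num, by decide, ?_⟩
      unfold ht; norm_num
    · refine ⟨5, by norm_num, by decide, ?_⟩
      unfold ht; norm_num

lemma ht_natAbs (D j : ℕ) : (ht D j).natAbs = (j + 1) * (D + 1) := by
  unfold ht
  split_ifs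
  · rw [one_mul]; norm_cast
  · rw [neg_one_mul, Int.natAbs_neg]; norm_cast

lemma ht_sep (D i j : ℕ) (hij : i ≠ j) : D < (ht D i - ht D j).natAbs := by
  obtain ⟨c, hc, h⟩ : ∃ c : ℤ, c ≠ 0 ∧ ht D i - ht D j = c * (D + 1) := by
    unfold ht
    split_ifs
    · exact ⟨i - j, by omega, by ring⟩
    · exact ⟨i + j + 2, by omega, by ring⟩
    · exact ⟨-(i + j + 2), by omega, by ring⟩
    · exact ⟨j - i, by omega, by ring⟩
  rw [h, Int.natAbs_mul]
  have h1 : 1 ≤ c.natAbs := Int.natAbs_pos.2 hc
  have h2 : ((D : ℤ) + 1).natAbs = D + 1 := by omega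
  rw [h2]
  nlinarith

lemma dominated (D n : ℕ) (hn : 9 ≤ n) (u : F × ℤ) (hu : n * (D + 1) < E u (1, 0)) :
    ∃ j < 8, E u (site D j) < E u (1, 0) := by
  have e0 : E u (1, 0) = max u.1.norm u.2.natAbs := by
    unfold E
    simp
  rw [e0] at hu ⊢
  obtain ⟨s, hs⟩ : ∃ s, (u.1 * (letter s)⁻¹).norm + 1 ≤ max u.1.norm u.2.natAbs := by
    by_cases h1 : u.1 = 1
    · refine ⟨(0, true), ?_⟩
      rw [h1, one_mul, FreeGroup.norm_inv_eq]
      have := norm_letter (0, true)
      rw [h1] at hu
      have h9 : 9 * 1 ≤ n * (D + 1) := Nat.mul_le_mul hn (by omega)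
      omega
    · obtain ⟨s, hs⟩ := last u.1 h1
      exact ⟨s, by omega⟩
  have e1 : ∀ j, lt j = s → E u (site D j) =
      max (u.1 * (letter s)⁻¹).norm (ht D j - u.2).natAbs := by
    intro j hj
    unfold E site
    rw [hj, ← FreeGroup.norm_inv_eq, mul_inv_rev, inv_inv]
  have hb : ∀ j < 8, (ht D j).natAbs ≤ n * (D + 1) := by
    intro j hj
    rw [ht_natAbs]
    exact Nat.mul_le_mul_right _ (by omega)
  obtain ⟨⟨j, hj, hjs, hpos⟩, j', hj', hjs', hneg⟩ := lt_ht s D
  rcases le_or_gt 0 u.2 with h0 | h0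
  · refine ⟨j, hj, ?_⟩
    rw [e1 j hjs]
    have := hb j hj
    omega
  · refine ⟨j', hj', ?_⟩
    rw [e1 j' hjs']
    have := hb j' hj'
    omega

lemma finite_ball (M : ℕ) : {u : F × ℤ | E u (1, 0) ≤ M}.Finite := by
  have h1 : {g : F | g.norm ≤ M}.Finite := by
    refine ((List.finite_length_le (Fin 2 × Bool) M).image FreeGroup.mk).subset ?_
    intro g hg
    exact ⟨g.toWord, hg, FreeGroup.mk_toWord⟩
  have h2 : {k : ℤ | k.natAbs ≤ M}.Finite := by
    refine (Set.finite_Icc (-(M : ℤ)) M).subset ?_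
    intro k hk
    rw [Set.mem_ofPred_eq] at hk
    rw [Set.mem_Icc]
    omega
  refine (h1.prod h2).subset ?_
  intro u hu
  rw [Set.mem_ofPred_eq] at hu
  unfold E at hu
  simp only [one_mul, FreeGroup.norm_inv_eq, zero_sub, Int.natAbs_neg] at hu
  exact ⟨(le_max_left _ _).trans hu, (le_max_right _ _).trans hu⟩

lemma few (D n : ℕ) (hn : 9 ≤ n) : ∃ T ∈ Sites Gr D n, numInfinite Gr T < n := by
  classical
  have hne : ∀ j, site D j ≠ (1, 0) := by
    intro j h
    have h1 := congrArg Prod.snd h
    have h2 := ht_natAbs D j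
    simp only [site] at h1
    rw [h1] at h2
    simp at h2
  have hinj : Function.Injective (site D) := by
    intro i j h
    by_contra hij
    have h1 := ht_sep D i j hij
    have h2 := congrArg Prod.snd h
    simp only [site] at h2
    rw [h2] at h1
    simp at h1
  refine ⟨insert (1, 0) ((Finset.range (n - 1)).image (site D)), ⟨?_, ?_⟩, ?_⟩
  · rw [Finset.card_insert_of_notMem, Finset.card_image_of_injective _ hinj, Finset.card_range]
    · omega
    · rw [Finset.mem_image]
      rintro ⟨j, -, hj⟩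
      exact hne j hj
  · have h0 : ∀ j, D < Gr.dist (1, 0) (site D j) := by
      intro j
      rw [dist_eq]
      refine lt_of_lt_of_le ?_ (le_max_right _ _)
      have h2 := ht_natAbs D j
      simp only [site, sub_zero]
      rw [h2]
      nlinarith
    intro v₁ h₁ v₂ h₂ hne'
    rw [Finset.mem_insert, Finset.mem_image] at h₁ h₂
    rcases h₁ with rfl | ⟨i, -, rfl⟩ <;> rcases h₂ with rfl | ⟨j, -, rfl⟩
    · exact absurd rfl hne'
    · exact h0 j
    · rw [dist_comm]
      exact h0 i
    · rw [dist_eq]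
      refine lt_of_lt_of_le ?_ (le_max_right _ _)
      apply ht_sep
      rintro rfl
      exact hne' rfl
  · set T := insert ((1 : F), (0 : ℤ)) ((Finset.range (n - 1)).image (site D)) with hT
    have hcell : ¬ (Cell Gr (1, 0) T).Infinite := by
      rw [Set.not_infinite]
      refine (finite_ball (n * (D + 1))).subset ?_
      intro u hu
      rw [Set.mem_ofPred_eq]
      by_contra hcon
      rw [not_le] at hcon
      obtain ⟨j, hj, hlt⟩ := dominated D n hn u hcon
      have h1 := hu (site D j) (by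
        rw [hT]
        exact Finset.mem_insert_of_mem (Finset.mem_image_of_mem _
          (Finset.mem_range.2 (by omega))))
      rw [dist_eq, dist_eq] at h1
      omega
    have h1 : {v | v ∈ T ∧ (Cell Gr v T).Infinite} ⊆
        (((Finset.range (n - 1)).image (site D) : Finset (F × ℤ)) : Set (F × ℤ)) := by
      rintro v ⟨hv, hv'⟩
      rw [hT, Finset.mem_insert] at hv
      rcases hv with rfl | hv
      · exact absurd hv' hcell
      · exact hv
    have h2 := Set.ncard_le_ncard h1 (Finset.finite_toSet _)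
    rw [Set.ncard_coe_finset] at h2
    have h3 := Finset.card_image_le (s := Finset.range (n - 1)) (f := site D)
    rw [Finset.card_range] at h3
    unfold numInfinite
    omega

lemma survival_le : survival Gr ≤ 8 := by
  apply sSup_le
  rintro m ⟨n, -, rfl, D, h⟩
  have hn : n ≤ 8 := by
    by_contra hcon
    obtain ⟨T, hT, hlt⟩ := few D n (by omega)
    have := h T hT
    omega
  exact_mod_cast hn

/-- **Result.** There is an infinite, connected, locally finite, vertex-transitive graph which is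
not Liouville and whose survival number is finite (at most `8`). -/
theorem result : ∃ (V : Type) (G : SimpleGraph V) (_ : G.LocallyFinite),
    Infinite V ∧ G.Connected ∧ VertexTransitive G ∧ ¬ Liouville G ∧ survival G ≤ 8 :=
  ⟨F × ℤ, Gr, inferInstance, inferInstance, connected, transitive, not_liouville, survival_le⟩

end Pool.Agent.Results.MP_70c392_co.NonLiouvilleFiniteSurvival
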